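import Mathlib

/-!
# The `k`-general position number of the integer grid

For all `k ≥ 2` and `n ≥ 1` the largest `k`-general position sets of the `n`-dimensional infinite
grid have exactly `(k - 1) ^ (2 ^ (n - 1))` elements.

Upper bound: for every sign vector `σ` with `σ 0 = 1` let `h σ x` be the size of a largest chain of
`S` with top element `x` for the order `≤_σ` (`σ i * x i ≤ σ i * y i` for all `i`).  Chains lie on
geodesics, so `1 ≤ h σ x ≤ k - 1`, and two points of `S` are comparable for some `≤_σ`, so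
`x ↦ (h σ x)_σ` is injective.

Lower bound: take the points `x(a) = ∑ r, σ_r * a_r * k ^ r`, where `σ_r` runs through the
`2 ^ (n - 1)` sign vectors and `0 ≤ a_r < k - 1`.  The difference of two such points has the signs of
`± σ_r`, for `r` the largest index with `a_r ≠ b_r`.
-/

set_option autoImplicit false

namespace Pool.Agent.Results.MP_2aa471_co.GridGeneralPosition

open Finset

/-- the vertices in `T` lie on a common geodesic (shortest path) of `G` -/
def OnGeodesic {V : Type} (G : SimpleGraph V) (T : Set V) : Prop :=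
  ∃ (u v : V) (p : G.Walk u v), p.IsPath ∧ p.length = G.dist u v ∧ ∀ x ∈ T, x ∈ p.support

/-- `S` is a `k`-general position set of `G`: no `k` distinct vertices of `S` lie on a common
geodesic -/
def IsGeneralPosition {V : Type} (G : SimpleGraph V) (k : ℕ) (S : Set V) : Prop :=
  ∀ T ⊆ S, T.encard = k → ¬ OnGeodesic G T

/-- the `n`-dimensional infinite grid: vertices are the points of `ℤ ^ n`, adjacent when they differ
by `1` in exactly one coordinate -/
def grid (n : ℕ) : SimpleGraph (Fin n → ℤ) where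
  Adj u v := ∃ i, |u i - v i| = 1 ∧ ∀ j, j ≠ i → u j = v j
  symm := ⟨fun u v h => by
    obtain ⟨i, hi, hj⟩ := h
    exact ⟨i, by rw [abs_sub_comm]; exact hi, fun j hji => (hj j hji).symm⟩⟩
  loopless := ⟨fun u h => by
    obtain ⟨i, hi, -⟩ := h
    simp at hi⟩

/-- the `ℓ¹` distance -/
def ell {n : ℕ} (u v : Fin n → ℤ) : ℕ := ∑ i, (u i - v i).natAbs

theorem ell_self {n : ℕ} (u : Fin n → ℤ) : ell u u = 0 := by simp [ell]

theorem ell_comm {n : ℕ} (u v : Fin n → ℤ) : ell u v = ell v u := by
  unfold ell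
  refine Finset.sum_congr rfl fun i _ => ?_
  omega

theorem ell_tri {n : ℕ} (u v w : Fin n → ℤ) : ell u w ≤ ell u v + ell v w := by
  unfold ell
  rw [← Finset.sum_add_distrib]
  refine Finset.sum_le_sum fun i _ => ?_
  omega

theorem eq_of_ell {n : ℕ} {u v : Fin n → ℤ} (h : ell u v = 0) : u = v := by
  unfold ell at h
  rw [Finset.sum_eq_zero_iff] at h
  funext i
  have := h i (Finset.mem_univ i)
  omega

theorem ell_adj {n : ℕ} {u v : Fin n → ℤ} (h : (grid n).Adj u v) : ell u v = 1 := by
  obtain ⟨i, hi, hj⟩ := h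
  unfold ell
  rw [Finset.sum_eq_single i]
  · rcases abs_eq (by norm_num : (0 : ℤ) ≤ 1) |>.1 hi with h | h <;> rw [h] <;> rfl
  · intro j _ hji
    rw [hj j hji]
    simp
  · intro h
    exact absurd (Finset.mem_univ i) h

theorem ell_le_length {n : ℕ} {u v : Fin n → ℤ} (p : (grid n).Walk u v) : ell u v ≤ p.length := by
  induction p with
  | nil => rw [ell_self]; exact Nat.zero_le _
  | cons h p ih =>
    rename_i a b c
    rw [SimpleGraph.Walk.length_cons]
    have h1 := ell_tri a b c
    rw [ell_adj h] at h1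
    omega

theorem exists_walk {n : ℕ} (k : ℕ) : ∀ u v : Fin n → ℤ, ell u v = k →
    ∃ p : (grid n).Walk u v, p.length = k := by
  induction k with
  | zero =>
    intro u v h
    have := eq_of_ell h
    subst this
    exact ⟨SimpleGraph.Walk.nil, rfl⟩
  | succ k ih =>
    intro u v h
    -- move one step from `u` towards `v`
    have hne : ∃ i, u i ≠ v i := by
      by_contra hcon
      push Not at hcon
      have : u = v := funext hcon
      rw [this, ell_self] at h
      exact absurd h.symm (Nat.succ_ne_zero k)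
    obtain ⟨i, hi⟩ := hne
    set w : Fin n → ℤ := Function.update u i (if u i < v i then u i + 1 else u i - 1) with hw
    have hadj : (grid n).Adj u w := by
      refine ⟨i, ?_, fun j hj => ?_⟩
      · rw [hw, Function.update_self]
        split_ifs <;> simp
      · rw [hw, Function.update_of_ne hj]
    have hell : ell w v = k := by
      have h1 : ell u v = (u i - v i).natAbs + ∑ j ∈ Finset.univ.erase i, (u j - v j).natAbs := by
        unfold ell
        rw [Finset.add_sum_erase _ (fun j => (u j - v j).natAbs) (Finset.mem_univ i)]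
      have h2 : ell w v = (w i - v i).natAbs + ∑ j ∈ Finset.univ.erase i, (w j - v j).natAbs := by
        unfold ell
        rw [Finset.add_sum_erase _ (fun j => (w j - v j).natAbs) (Finset.mem_univ i)]
      have h3 : ∑ j ∈ Finset.univ.erase i, (w j - v j).natAbs =
          ∑ j ∈ Finset.univ.erase i, (u j - v j).natAbs := by
        refine Finset.sum_congr rfl fun j hj => ?_
        rw [hw, Function.update_of_ne (Finset.ne_of_mem_erase hj)]
      have h4 : (w i - v i).natAbs + 1 = (u i - v i).natAbs := by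
        rw [hw, Function.update_self]
        split_ifs with hlt <;> omega
      rw [h] at h1
      rw [h2, h3]
      omega
    obtain ⟨p, hp⟩ := ih w v hell
    exact ⟨SimpleGraph.Walk.cons hadj p, by rw [SimpleGraph.Walk.length_cons, hp]⟩

theorem dist_eq {n : ℕ} (u v : Fin n → ℤ) : (grid n).dist u v = ell u v := by
  obtain ⟨p, hp⟩ := exists_walk _ u v rfl
  refine le_antisymm (hp ▸ SimpleGraph.dist_le p) ?_
  obtain ⟨q, hq⟩ := (SimpleGraph.Walk.reachable p).exists_walk_length_eq_dist
  rw [← hq]
  exact ell_le_length q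

/-- the order `≤_s` -/
def sle {n : ℕ} (s : Fin n → ℤ) (x y : Fin n → ℤ) : Prop := ∀ i, s i * x i ≤ s i * y i

/-- `s` is a vector of signs -/
def IsSign {n : ℕ} (s : Fin n → ℤ) : Prop := ∀ i, s i = 1 ∨ s i = -1

theorem sle_refl {n : ℕ} (s x : Fin n → ℤ) : sle s x x := fun _ => le_rfl

theorem sle_trans {n : ℕ} {s x y z : Fin n → ℤ} (h1 : sle s x y) (h2 : sle s y z) : sle s x z :=
  fun i => (h1 i).trans (h2 i)

theorem sle_antisymm {n : ℕ} {s x y : Fin n → ℤ} (hs : IsSign s) (h1 : sle s x y)
    (h2 : sle s y x) : x = y := by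
  funext i
  have h3 := h1 i
  have h4 := h2 i
  rcases hs i with h | h <;> rw [h] at h3 h4 <;> omega

/-- for comparable points the distance is the difference of the heights -/
theorem ell_of_sle {n : ℕ} {s x y : Fin n → ℤ} (hs : IsSign s) (h : sle s x y) :
    (ell x y : ℤ) = ∑ i, s i * y i - ∑ i, s i * x i := by
  unfold ell
  push_cast
  rw [← Finset.sum_sub_distrib]
  refine Finset.sum_congr rfl fun i _ => ?_
  have h1 := h i
  rcases hs i with h2 | h2 <;> rw [h2] at h1 ⊢
  · rw [abs_of_nonpos (by omega)]; ring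
  · rw [abs_of_nonneg (by omega)]; ring

/-- a chain has a top element -/
theorem exists_top {n : ℕ} {s : Fin n → ℤ} (hs : IsSign s) (c : Finset (Fin n → ℤ))
    (hc : c.Nonempty) (hch : ∀ x ∈ c, ∀ y ∈ c, sle s x y ∨ sle s y x) :
    ∃ v ∈ c, ∀ x ∈ c, sle s x v := by
  obtain ⟨v, hv, hmax⟩ := Finset.exists_max_image c (fun x => ∑ i, s i * x i) hc
  refine ⟨v, hv, fun x hx => ?_⟩
  rcases hch x hx v hv with h | h
  · exact h
  · have h1 := ell_of_sle hs h
    have h2 := hmax x hx
    have h3 : ell v x = 0 := by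
      have : (ell v x : ℤ) ≤ 0 := by rw [h1]; linarith
      omega
    rw [eq_of_ell h3]
    exact sle_refl s x

/-- a chain lies on a geodesic -/
theorem chain_walk {n : ℕ} {s : Fin n → ℤ} (hs : IsSign s) (N : ℕ) :
    ∀ c : Finset (Fin n → ℤ), c.card = N + 1 → (∀ x ∈ c, ∀ y ∈ c, sle s x y ∨ sle s y x) →
      ∃ u ∈ c, ∃ v ∈ c, sle s u v ∧ (∀ x ∈ c, sle s x v) ∧ ∃ p : (grid n).Walk u v,
        p.length = ell u v ∧ ∀ x ∈ c, x ∈ p.support := by
  induction N with
  | zero =>
    intro c hc hch
    obtain ⟨a, rfl⟩ := Finset.card_eq_one.1 (by simpa using hc)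
    refine ⟨a, by simp, a, by simp, sle_refl s a, ?_, SimpleGraph.Walk.nil, ?_, ?_⟩
    · intro x hx
      rw [Finset.mem_singleton.1 hx]
      exact sle_refl s a
    · rw [ell_self]; rfl
    · intro x hx
      rw [Finset.mem_singleton.1 hx]
      simp
  | succ N ih =>
    intro c hc hch
    have hne : c.Nonempty := Finset.card_pos.1 (by omega)
    obtain ⟨v, hv, htop⟩ := exists_top hs c hne hch
    obtain ⟨u, hu, v', hv', huv', htop', p, hp, hsup⟩ := ih (c.erase v)
      (by rw [Finset.card_erase_of_mem hv]; omega)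
      (fun x hx y hy => hch x (Finset.mem_of_mem_erase hx) y (Finset.mem_of_mem_erase hy))
    have hv'v : sle s v' v := htop v' (Finset.mem_of_mem_erase hv')
    obtain ⟨q, hq⟩ := exists_walk _ v' v rfl
    refine ⟨u, Finset.mem_of_mem_erase hu, v, hv, sle_trans huv' hv'v, htop, p.append q, ?_, ?_⟩
    · rw [SimpleGraph.Walk.length_append, hp, hq]
      have h1 := ell_of_sle hs huv'
      have h2 := ell_of_sle hs hv'v
      have h3 := ell_of_sle hs (sle_trans huv' hv'v)
      have : ((ell u v' + ell v' v : ℕ) : ℤ) = (ell u v : ℕ) := by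
        push_cast
        rw [h1, h2, h3]
        ring
      exact_mod_cast this
    · intro x hx
      rw [SimpleGraph.Walk.mem_support_append_iff]
      by_cases hxv : x = v
      · right
        rw [hxv]
        exact SimpleGraph.Walk.end_mem_support q
      · left
        exact hsup x (Finset.mem_erase.2 ⟨hxv, hx⟩)

theorem chain_onGeodesic {n : ℕ} {s : Fin n → ℤ} (hs : IsSign s) (c : Finset (Fin n → ℤ))
    (hc : c.Nonempty) (hch : ∀ x ∈ c, ∀ y ∈ c, sle s x y ∨ sle s y x) :
    OnGeodesic (grid n) (c : Set (Fin n → ℤ)) := by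
  have hpos := Finset.card_pos.2 hc
  obtain ⟨u, -, v, -, -, -, p, hp, hsup⟩ := chain_walk hs (c.card - 1) c (by omega) hch
  have hd : p.length = (grid n).dist u v := by rw [dist_eq, hp]
  exact ⟨u, v, p, SimpleGraph.Walk.isPath_of_length_eq_dist p hd, hd, fun x hx => hsup x hx⟩

/-- points on a geodesic form a chain -/
theorem geodesic_chain {n : ℕ} {T : Set (Fin n → ℤ)} (h : OnGeodesic (grid n) T) :
    ∃ s : Fin n → ℤ, IsSign s ∧ ∀ x ∈ T, ∀ y ∈ T, sle s x y ∨ sle s y x := by
  obtain ⟨u, v, p, -, hp, hT⟩ := h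
  rw [dist_eq] at hp
  -- every point of the walk is between `u` and `v`
  have hbtw : ∀ x ∈ p.support, ell u x + ell x v = ell u v := by
    intro x hx
    have h1 := ell_le_length (p.takeUntil x hx)
    have h2 := ell_le_length (p.dropUntil x hx)
    have h3 : (p.takeUntil x hx).length + (p.dropUntil x hx).length = p.length := by
      rw [← SimpleGraph.Walk.length_append, SimpleGraph.Walk.take_spec]
    have h4 := ell_tri u x v
    omega
  have hpair : ∀ x ∈ p.support, ∀ y ∈ p.support, ell u x + ell x y = ell u y ∨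
      ell u y + ell y x = ell u x := by
    intro x hx y hy
    have h1 := ell_le_length (p.takeUntil y hy)
    have h2 := ell_le_length (p.dropUntil y hy)
    have h3 : (p.takeUntil y hy).length + (p.dropUntil y hy).length = p.length := by
      rw [← SimpleGraph.Walk.length_append, SimpleGraph.Walk.take_spec]
    have hby := hbtw y hy
    have hbx := hbtw x hx
    have hx' : x ∈ ((p.takeUntil y hy).append (p.dropUntil y hy)).support := by
      rw [SimpleGraph.Walk.take_spec]; exact hx
    rw [SimpleGraph.Walk.mem_support_append_iff] at hx'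
    rcases hx' with hx' | hx'
    · left
      have h5 := ell_le_length ((p.takeUntil y hy).takeUntil x hx')
      have h6 := ell_le_length ((p.takeUntil y hy).dropUntil x hx')
      have h7 : ((p.takeUntil y hy).takeUntil x hx').length +
          ((p.takeUntil y hy).dropUntil x hx').length = (p.takeUntil y hy).length := by
        rw [← SimpleGraph.Walk.length_append, SimpleGraph.Walk.take_spec]
      have h8 := ell_tri u x y
      omega
    · right
      have h5 := ell_le_length ((p.dropUntil y hy).takeUntil x hx')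
      have h6 := ell_le_length ((p.dropUntil y hy).dropUntil x hx')
      have h7 : ((p.dropUntil y hy).takeUntil x hx').length +
          ((p.dropUntil y hy).dropUntil x hx').length = (p.dropUntil y hy).length := by
        rw [← SimpleGraph.Walk.length_append, SimpleGraph.Walk.take_spec]
      have h8 := ell_tri u y x
      omega
  refine ⟨fun i => if u i ≤ v i then 1 else -1, fun i => ?_, ?_⟩
  · by_cases hi : u i ≤ v i
    · left; simp [hi]
    · right; simp [hi]
  · -- coordinatewise betweenness
    have hco : ∀ x y z : Fin n → ℤ, ell x y + ell y z = ell x z → ∀ i,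
        (x i - y i).natAbs + (y i - z i).natAbs = (x i - z i).natAbs := by
      intro x y z hxyz i
      unfold ell at hxyz
      rw [← Finset.sum_add_distrib] at hxyz
      have h1 : ∀ j ∈ (Finset.univ : Finset (Fin n)), (x j - z j).natAbs ≤
          (x j - y j).natAbs + (y j - z j).natAbs := by
        intro j _
        omega
      exact ((Finset.sum_eq_sum_iff_of_le h1).1 hxyz.symm i (Finset.mem_univ i)).symm
    intro x hx y hy
    have hbx := hco u x v (hbtw x (hT x hx))
    have hby := hco u y v (hbtw y (hT y hy))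
    rcases hpair x (hT x hx) y (hT y hy) with h | h
    · left
      intro i
      have h1 := hco u x y h i
      have h2 := hbx i
      have h3 := hby i
      show (if u i ≤ v i then (1 : ℤ) else -1) * x i ≤ (if u i ≤ v i then (1 : ℤ) else -1) * y i
      split_ifs with hi <;> omega
    · right
      intro i
      have h1 := hco u y x h i
      have h2 := hbx i
      have h3 := hby i
      show (if u i ≤ v i then (1 : ℤ) else -1) * y i ≤ (if u i ≤ v i then (1 : ℤ) else -1) * x i
      split_ifs with hi <;> omega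

/-- the sign vector with first entry `1` given by `τ` -/
def sgn {m : ℕ} (τ : Fin m → Bool) : Fin (m + 1) → ℤ :=
  Fin.cons 1 (fun j => if τ j then 1 else -1)

theorem sgn_zero {m : ℕ} (τ : Fin m → Bool) : sgn τ 0 = 1 := rfl

theorem sgn_succ {m : ℕ} (τ : Fin m → Bool) (j : Fin m) :
    sgn τ j.succ = if τ j then 1 else -1 := rfl

theorem isSign_sgn {m : ℕ} (τ : Fin m → Bool) : IsSign (sgn τ) := by
  intro i
  refine Fin.cases ?_ (fun j => ?_) i
  · left; rfl
  · rw [sgn_succ]
    by_cases h : τ j <;> simp [h]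

/-- any two points are comparable for some `≤_τ` -/
theorem exists_comparable {m : ℕ} (x y : Fin (m + 1) → ℤ) :
    ∃ τ : Fin m → Bool, sle (sgn τ) x y ∨ sle (sgn τ) y x := by
  by_cases h0 : x 0 ≤ y 0
  · refine ⟨fun j => decide (x j.succ ≤ y j.succ), Or.inl ?_⟩
    intro i
    refine Fin.cases ?_ (fun j => ?_) i
    · rw [sgn_zero]; omega
    · rw [sgn_succ]
      by_cases h : x j.succ ≤ y j.succ
      · simp [h]
      · simp only [h, decide_false, Bool.false_eq_true, if_false]
        omega
  · refine ⟨fun j => decide (¬ x j.succ ≤ y j.succ), Or.inr ?_⟩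
    intro i
    refine Fin.cases ?_ (fun j => ?_) i
    · rw [sgn_zero]; omega
    · rw [sgn_succ]
      by_cases h : x j.succ ≤ y j.succ
      · simp only [h, not_true, decide_false, Bool.false_eq_true, if_false]
        omega
      · simp only [h, not_false_iff, decide_true, if_true]
        omega

theorem upper (k : ℕ) (hk : 2 ≤ k) (m : ℕ) (A : Finset (Fin (m + 1) → ℤ))
    (hA : IsGeneralPosition (grid (m + 1)) k (A : Set (Fin (m + 1) → ℤ))) :
    A.card ≤ (k - 1) ^ (2 ^ m) := by
  classical
  -- chains are short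
  have hshort : ∀ τ : Fin m → Bool, ∀ c ⊆ A,
      (∀ x ∈ c, ∀ y ∈ c, sle (sgn τ) x y ∨ sle (sgn τ) y x) → c.card ≤ k - 1 := by
    intro τ c hcA hch
    by_contra hcon
    obtain ⟨c', hc', hcard⟩ := Finset.exists_subset_card_eq (show k ≤ c.card by omega)
    refine hA (c' : Set (Fin (m + 1) → ℤ)) ?_ ?_ ?_
    · intro x hx
      exact hcA (hc' hx)
    · rw [Set.encard_coe_eq_coe_finsetCard, hcard]
    · exact chain_onGeodesic (isSign_sgn τ) c' (Finset.card_pos.1 (by omega))
        (fun x hx y hy => hch x (hc' hx) y (hc' hy))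
  set P : (Fin m → Bool) → (Fin (m + 1) → ℤ) → Finset (Fin (m + 1) → ℤ) → Prop :=
    fun τ x c => x ∈ c ∧ (∀ y ∈ c, sle (sgn τ) y x) ∧
      ∀ y ∈ c, ∀ z ∈ c, sle (sgn τ) y z ∨ sle (sgn τ) z y with hP
  set h : (Fin m → Bool) → (Fin (m + 1) → ℤ) → ℕ := fun τ x =>
    (A.powerset.filter (fun c => P τ x c)).sup Finset.card with hh
  have hsing : ∀ τ, ∀ x ∈ A, ({x} : Finset (Fin (m + 1) → ℤ)) ∈
      A.powerset.filter (fun c => P τ x c) := by
    intro τ x hx
    rw [Finset.mem_filter, Finset.mem_powerset]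
    refine ⟨Finset.singleton_subset_iff.2 hx, Finset.mem_singleton_self x, ?_, ?_⟩
    · intro y hy
      rw [Finset.mem_singleton.1 hy]
      exact sle_refl _ _
    · intro y hy z hz
      rw [Finset.mem_singleton.1 hy, Finset.mem_singleton.1 hz]
      exact Or.inl (sle_refl _ _)
  have h1 : ∀ τ, ∀ x ∈ A, 1 ≤ h τ x := by
    intro τ x hx
    have := Finset.le_sup (f := Finset.card) (hsing τ x hx)
    rwa [Finset.card_singleton] at this
  have h2 : ∀ τ, ∀ x ∈ A, h τ x ≤ k - 1 := by
    intro τ x hx
    refine Finset.sup_le fun c hc => ?_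
    rw [Finset.mem_filter, Finset.mem_powerset] at hc
    exact hshort τ c hc.1 hc.2.2.2
  have h3 : ∀ τ, ∀ x ∈ A, ∀ y ∈ A, x ≠ y → sle (sgn τ) x y → h τ x < h τ y := by
    intro τ x hx y hy hxy hle
    obtain ⟨c, hc, hcx⟩ := Finset.exists_mem_eq_sup (A.powerset.filter (fun c => P τ x c))
      ⟨_, hsing τ x hx⟩ Finset.card
    rw [Finset.mem_filter, Finset.mem_powerset] at hc
    obtain ⟨hcA, hxc, htop, hch⟩ := hc
    have hyc : y ∉ c := fun hyc => hxy (sle_antisymm (isSign_sgn τ) hle (htop y hyc))
    have hmem : insert y c ∈ A.powerset.filter (fun c => P τ y c) := by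
      rw [Finset.mem_filter, Finset.mem_powerset]
      refine ⟨Finset.insert_subset hy hcA, Finset.mem_insert_self y c, ?_, ?_⟩
      · intro z hz
        rcases Finset.mem_insert.1 hz with rfl | hz
        · exact sle_refl _ _
        · exact sle_trans (htop z hz) hle
      · intro z hz w hw
        rcases Finset.mem_insert.1 hz with hz' | hz' <;> rcases Finset.mem_insert.1 hw with hw' | hw'
        · rw [hz', hw']; exact Or.inl (sle_refl _ _)
        · rw [hz']; exact Or.inr (sle_trans (htop w hw') hle)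
        · rw [hw']; exact Or.inl (sle_trans (htop z hz') hle)
        · exact hch z hz' w hw'
    have h4 := Finset.le_sup (f := Finset.card) hmem
    rw [Finset.card_insert_of_notMem hyc] at h4
    have h5 : h τ x = c.card := hcx
    rw [h5]
    exact h4
  have hinj : A.card ≤ (Fintype.piFinset (fun _ : Fin m → Bool => Finset.Icc 1 (k - 1))).card := by
    refine Finset.card_le_card_of_injOn (fun x τ => h τ x) ?_ ?_
    · intro x hx
      show (fun τ => h τ x) ∈ Fintype.piFinset (fun _ : Fin m → Bool => Finset.Icc 1 (k - 1))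
      rw [Fintype.mem_piFinset]
      intro τ
      exact Finset.mem_Icc.2 ⟨h1 τ x hx, h2 τ x hx⟩
    · intro x hx y hy hxy
      by_contra hne
      obtain ⟨τ, hτ⟩ := exists_comparable x y
      have hxy' : h τ x = h τ y := congrFun hxy τ
      rcases hτ with hτ | hτ
      · exact absurd hxy' (h3 τ x hx y hy hne hτ).ne
      · exact absurd hxy' (h3 τ y hy x hx (fun e => hne e.symm) hτ).ne'
  rw [Fintype.card_piFinset] at hinj
  simpa using hinj

theorem dom_range (q : ℕ) (t : ℕ → ℤ) (ht : ∀ r, |t r| ≤ q) (N : ℕ) :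
    |∑ r ∈ range N, t r * ((q : ℤ) + 1) ^ r| ≤ ((q : ℤ) + 1) ^ N - 1 := by
  induction N with
  | zero => simp
  | succ N ih =>
    rw [Finset.sum_range_succ]
    have h1 : |t N * ((q : ℤ) + 1) ^ N| ≤ q * ((q : ℤ) + 1) ^ N := by
      rw [abs_mul, abs_of_nonneg (show (0 : ℤ) ≤ ((q : ℤ) + 1) ^ N by positivity)]
      exact mul_le_mul_of_nonneg_right (ht N) (by positivity)
    have h2 := abs_add_le (∑ r ∈ range N, t r * ((q : ℤ) + 1) ^ r) (t N * ((q : ℤ) + 1) ^ N)
    calc _ ≤ _ := h2
      _ ≤ (((q : ℤ) + 1) ^ N - 1) + q * ((q : ℤ) + 1) ^ N := add_le_add ih h1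
      _ = ((q : ℤ) + 1) ^ (N + 1) - 1 := by ring

theorem dom_fin (q N : ℕ) (t : Fin N → ℤ) (ht : ∀ r, |t r| ≤ q) (R : Fin N) (hR : t R ≠ 0)
    (h0 : ∀ r, R < r → t r = 0) : 0 < t R * ∑ r, t r * ((q : ℤ) + 1) ^ (r : ℕ) := by
  set T : ℕ → ℤ := fun r => if h : r < N then t ⟨r, h⟩ else 0 with hT
  have hTq : ∀ r, |T r| ≤ q := by
    intro r
    rw [hT]
    by_cases h : r < N
    · simp only [h, dif_pos]; exact ht _
    · simp only [h, dif_neg, not_false_iff, abs_zero]; positivity
  have hTR : T R = t R := by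
    rw [hT]
    simp only [R.2, dif_pos]
  have hsum : ∑ r, t r * ((q : ℤ) + 1) ^ (r : ℕ) =
      ∑ r ∈ range (R : ℕ), T r * ((q : ℤ) + 1) ^ r + t R * ((q : ℤ) + 1) ^ (R : ℕ) := by
    have h1 : ∑ r, t r * ((q : ℤ) + 1) ^ (r : ℕ) = ∑ r ∈ range N, T r * ((q : ℤ) + 1) ^ r := by
      rw [Finset.sum_fin_eq_sum_range]
      refine Finset.sum_congr rfl fun r hr => ?_
      rw [Finset.mem_range] at hr
      simp only [hT, hr, dif_pos]
    have h2 : ∑ r ∈ range N, T r * ((q : ℤ) + 1) ^ r =
        ∑ r ∈ range ((R : ℕ) + 1), T r * ((q : ℤ) + 1) ^ r := by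
      symm
      refine Finset.sum_subset (fun r hr => ?_) (fun r hr hr' => ?_)
      · rw [Finset.mem_range] at hr ⊢
        have := R.2
        omega
      · rw [Finset.mem_range] at hr hr'
        have : T r = 0 := by
          simp only [hT, hr, dif_pos]
          refine h0 _ ?_
          rw [Fin.lt_def]
          show (R : ℕ) < r
          omega
        rw [this, zero_mul]
    rw [h1, h2, Finset.sum_range_succ, hTR]
  rw [hsum]
  have hb := dom_range q T hTq (R : ℕ)
  rw [abs_le] at hb
  set X : ℤ := ∑ r ∈ range (R : ℕ), T r * ((q : ℤ) + 1) ^ r with hX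
  set Y : ℤ := ((q : ℤ) + 1) ^ (R : ℕ) with hY
  have hYpos : 0 < Y := by rw [hY]; positivity
  rcases lt_or_gt_of_ne hR with h | h
  · have h1 : t R ≤ -1 := by omega
    have h2 : X + t R * Y < 0 := by nlinarith
    exact mul_pos_of_neg_of_neg h h2
  · have h1 : 1 ≤ t R := by omega
    have h2 : 0 < X + t R * Y := by nlinarith
    exact mul_pos h h2

/-- the points of the large general position set -/
def pt {m q : ℕ} (e : Fin (2 ^ m) ≃ (Fin m → Bool)) (a : Fin (2 ^ m) → Fin q) :
    Fin (m + 1) → ℤ := fun i => ∑ r, sgn (e r) i * ((a r : ℕ) : ℤ) * ((q : ℤ) + 1) ^ (r : ℕ)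

theorem exists_top_diff {N q : ℕ} (a b : Fin N → Fin q) (h : a ≠ b) :
    ∃ R, a R ≠ b R ∧ ∀ r, R < r → a r = b r := by
  classical
  have hne : (Finset.univ.filter (fun r => a r ≠ b r)).Nonempty := by
    by_contra hcon
    rw [Finset.not_nonempty_iff_eq_empty] at hcon
    refine h (funext fun r => ?_)
    by_contra hr
    have : r ∈ Finset.univ.filter (fun r => a r ≠ b r) :=
      Finset.mem_filter.2 ⟨Finset.mem_univ r, hr⟩
    rw [hcon] at this
    simp at this
  refine ⟨(Finset.univ.filter (fun r => a r ≠ b r)).max' hne, ?_, ?_⟩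
  · exact (Finset.mem_filter.1 (Finset.max'_mem _ hne)).2
  · intro r hr
    by_contra hcon
    have hmem : r ∈ Finset.univ.filter (fun r => a r ≠ b r) :=
      Finset.mem_filter.2 ⟨Finset.mem_univ r, hcon⟩
    exact absurd hr (not_lt.2 (Finset.le_max' _ r hmem))

/-- the sign of the differences of the coordinates -/
theorem pt_diff {m q : ℕ} (e : Fin (2 ^ m) ≃ (Fin m → Bool)) (a b : Fin (2 ^ m) → Fin q)
    (R : Fin (2 ^ m)) (hR : a R ≠ b R) (h0 : ∀ r, R < r → a r = b r) (i : Fin (m + 1)) :
    0 < (sgn (e R) i * (((b R : ℕ) : ℤ) - ((a R : ℕ) : ℤ))) * (pt e b i - pt e a i) := by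
  have h1 : pt e b i - pt e a i = ∑ r, (sgn (e r) i * (((b r : ℕ) : ℤ) - ((a r : ℕ) : ℤ))) *
      ((q : ℤ) + 1) ^ (r : ℕ) := by
    unfold pt
    rw [← Finset.sum_sub_distrib]
    refine Finset.sum_congr rfl fun r _ => ?_
    ring
  rw [h1]
  refine dom_fin q (2 ^ m) (fun r => sgn (e r) i * (((b r : ℕ) : ℤ) - ((a r : ℕ) : ℤ)))
    ?_ R ?_ ?_
  · intro r
    have h2 := (a r).2
    have h3 := (b r).2
    have h4 : |(((b r : ℕ) : ℤ) - ((a r : ℕ) : ℤ))| ≤ q := by
      rw [abs_le]; constructor <;> omega
    rcases isSign_sgn (e r) i with h | h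
    · simp only [h, one_mul]; exact h4
    · simp only [h, neg_mul, one_mul, abs_neg]; exact h4
  · have h2 : ((b R : ℕ) : ℤ) - ((a R : ℕ) : ℤ) ≠ 0 := by
      intro h
      apply hR
      apply Fin.ext
      omega
    rcases isSign_sgn (e R) i with h | h
    · simp only [h, one_mul]; exact h2
    · simp only [h, neg_mul, one_mul]
      intro h5
      exact h2 (by linarith)
  · intro r hr
    show sgn (e r) i * (((b r : ℕ) : ℤ) - ((a r : ℕ) : ℤ)) = 0
    rw [h0 r hr, sub_self, mul_zero]

theorem pt_injective {m q : ℕ} (e : Fin (2 ^ m) ≃ (Fin m → Bool)) :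
    Function.Injective (pt (q := q) e) := by
  intro a b hab
  by_contra hne
  obtain ⟨R, hR, h0⟩ := exists_top_diff a b hne
  have := pt_diff e a b R hR h0 0
  rw [hab, sub_self, mul_zero] at this
  exact lt_irrefl _ this

/-- comparable points differ first at the index given by the order -/
theorem top_index {m q : ℕ} (e : Fin (2 ^ m) ≃ (Fin m → Bool)) {s : Fin (m + 1) → ℤ}
    (hs : IsSign s) (a b : Fin (2 ^ m) → Fin q) (hle : sle s (pt e a) (pt e b)) (hne : a ≠ b) :
    a (e.symm (fun j => decide (s 0 * s j.succ = 1))) ≠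
      b (e.symm (fun j => decide (s 0 * s j.succ = 1))) := by
  obtain ⟨R, hR, h0⟩ := exists_top_diff a b hne
  have hkey : ∀ i, 0 < s i * (sgn (e R) i * (((b R : ℕ) : ℤ) - ((a R : ℕ) : ℤ))) := by
    intro i
    have h1 := pt_diff e a b R hR h0 i
    have h2 := hle i
    have h3 : 0 ≤ s i * (pt e b i - pt e a i) := by linarith
    set D := pt e b i - pt e a i with hD
    set C := sgn (e R) i * (((b R : ℕ) : ℤ) - ((a R : ℕ) : ℤ)) with hC
    rcases hs i with h | h <;> rw [h] at h3 ⊢
    · have h4 : 0 ≤ D := by linarith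
      have h5 : 0 < C := by
        by_contra hcon
        nlinarith
      linarith
    · have h4 : D ≤ 0 := by linarith
      have h5 : C < 0 := by
        by_contra hcon
        nlinarith
      linarith
  have h00 := hkey 0
  rw [sgn_zero, one_mul] at h00
  have hRe : e R = fun j => decide (s 0 * s j.succ = 1) := by
    funext j
    have h1 := hkey j.succ
    rw [sgn_succ] at h1
    by_cases hj : e R j = true
    · rw [hj] at h1 ⊢
      simp only [if_true, one_mul] at h1
      rcases hs 0 with h | h <;> rcases hs j.succ with h' | h' <;> rw [h] at h00 <;>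
        rw [h'] at h1 <;> simp [h, h'] <;> linarith
    · rw [Bool.not_eq_true] at hj
      rw [hj] at h1 ⊢
      simp only [Bool.false_eq_true, if_false, neg_mul, one_mul] at h1
      rcases hs 0 with h | h <;> rcases hs j.succ with h' | h' <;> rw [h] at h00 <;>
        rw [h'] at h1 <;> simp [h, h'] <;> linarith
  rw [← hRe, Equiv.symm_apply_apply]
  exact hR

theorem lower (k : ℕ) (hk : 2 ≤ k) (m : ℕ) :
    ∃ S : Set (Fin (m + 1) → ℤ), IsGeneralPosition (grid (m + 1)) k S ∧
      S.encard = (((k - 1) ^ (2 ^ m) : ℕ) : ℕ∞) := by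
  classical
  have hcard : Fintype.card (Fin m → Bool) = 2 ^ m := by simp
  set e : Fin (2 ^ m) ≃ (Fin m → Bool) := (Fintype.equivFinOfCardEq hcard).symm with he
  refine ⟨Set.range (pt (q := k - 1) e), ?_, ?_⟩
  · intro T hT hTk hgeo
    obtain ⟨s, hs, hch⟩ := geodesic_chain hgeo
    set T' : Set (Fin (2 ^ m) → Fin (k - 1)) := {a | pt e a ∈ T} with hT'
    have hTT' : pt e '' T' = T := by
      ext x
      constructor
      · rintro ⟨a, ha, rfl⟩
        exact ha
      · intro hx
        obtain ⟨a, rfl⟩ := hT hx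
        exact ⟨a, hx, rfl⟩
    have hcT' : T'.encard = k := by
      rw [← hTk, ← hTT', (pt_injective e).encard_image]
    have hinj : Set.InjOn (fun a : Fin (2 ^ m) → Fin (k - 1) =>
        a (e.symm (fun j => decide (s 0 * s j.succ = 1)))) T' := by
      intro a ha b hb hab
      by_contra hne
      rcases hch _ ha _ hb with h | h
      · exact top_index e hs a b h hne hab
      · exact top_index e hs b a h (fun h' => hne h'.symm) hab.symm
    have h1 := hinj.encard_image
    have h2 : ((fun a : Fin (2 ^ m) → Fin (k - 1) =>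
        a (e.symm (fun j => decide (s 0 * s j.succ = 1)))) '' T').encard ≤
          (Set.univ : Set (Fin (k - 1))).encard := Set.encard_le_encard (Set.subset_univ _)
    rw [h1, hcT', Set.encard_univ] at h2
    simp only [ENat.card_eq_coe_fintype_card, Fintype.card_fin, Nat.cast_le] at h2
    omega
  · have h1 : Set.range (pt (q := k - 1) e) = ((Finset.univ.image (pt (q := k - 1) e) :
        Finset (Fin (m + 1) → ℤ)) : Set (Fin (m + 1) → ℤ)) := by
      simp
    rw [h1, Set.encard_coe_eq_coe_finsetCard, Finset.card_image_of_injective _ (pt_injective e),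
      Finset.card_univ]
    simp

/-- For all `k ≥ 2` and `n ≥ 1` the `k`-general position number of the `n`-dimensional infinite grid
is `(k - 1) ^ (2 ^ (n - 1))`: this is the largest size of a `k`-general position set. -/
theorem result (k n : ℕ) (hk : 2 ≤ k) (hn : 1 ≤ n) :
    IsGreatest {M : ℕ∞ | ∃ S : Set (Fin n → ℤ), IsGeneralPosition (grid n) k S ∧ S.encard = M}
      (((k - 1) ^ (2 ^ (n - 1)) : ℕ) : ℕ∞) := by
  obtain ⟨m, rfl⟩ : ∃ m, n = m + 1 := ⟨n - 1, by omega⟩
  rw [Nat.add_sub_cancel]
  refine ⟨lower k hk m, ?_⟩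
  rintro M ⟨S, hS, rfl⟩
  by_contra hcon
  rw [not_le] at hcon
  have h1 : ((((k - 1) ^ (2 ^ m) + 1 : ℕ)) : ℕ∞) ≤ S.encard := by
    push_cast at hcon ⊢
    exact Order.add_one_le_of_lt hcon
  obtain ⟨t, htS, ht⟩ := Set.exists_subset_encard_eq h1
  have hfin : t.Finite := Set.finite_of_encard_eq_coe ht
  have h2 : IsGeneralPosition (grid (m + 1)) k ((hfin.toFinset : Finset (Fin (m + 1) → ℤ)) :
      Set (Fin (m + 1) → ℤ)) := by
    rw [hfin.coe_toFinset]
    intro T hT
    exact hS T (hT.trans htS)
  have h3 := upper k hk m hfin.toFinset h2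
  have h4 : ((hfin.toFinset.card : ℕ) : ℕ∞) = (((k - 1) ^ (2 ^ m) + 1 : ℕ) : ℕ∞) := by
    rw [← ht, ← Set.encard_coe_eq_coe_finsetCard, hfin.coe_toFinset]
  have h5 : hfin.toFinset.card = (k - 1) ^ (2 ^ m) + 1 := by exact_mod_cast h4
  omega

end Pool.Agent.Results.MP_2aa471_co.GridGeneralPosition
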